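import Pool.Agent.W990.EB.Stm

/-!
# Project EB: the pointwise quadratic bound for the sum version
-/

set_option autoImplicit false
open Finset

namespace Pool.Agent.W977.EB.Quad

open Pool.Agent.W990.EB

/-- the square of the generating sum is the generating sum of the representation function -/
theorem sq_eq (S : Finset ℕ) (M : ℕ) (s : ℝ) (hM : ∀ n, M < n → r S n = 0) :
    (f S s) ^ 2 = ∑ n ∈ range (M + 1), (r S n : ℝ) * Real.exp (-(s * n)) := by
  classical
  have h1 : (f S s) ^ 2 = ∑ x ∈ S ×ˢ S, Real.exp (-(s * ((x.1 + x.2 : ℕ) : ℝ))) := by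
    unfold f
    rw [sq, Finset.sum_mul_sum, Finset.sum_product]
    refine Finset.sum_congr rfl fun a _ => Finset.sum_congr rfl fun b _ => ?_
    rw [← Real.exp_add]
    congr 1
    push_cast
    ring
  have hmap : ∀ x ∈ S ×ˢ S, x.1 + x.2 ∈ range (M + 1) := by
    intro x hx
    rw [Finset.mem_range]
    by_contra hcon
    have hlt : M < x.1 + x.2 := by omega
    have h0 := hM _ hlt
    unfold r at h0
    rw [Finset.card_eq_zero, Finset.filter_eq_empty_iff] at h0
    exact h0 hx rfl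
  rw [h1, ← Finset.sum_fiberwise_of_maps_to hmap]
  refine Finset.sum_congr rfl fun n _ => ?_
  have h2 : ∀ x ∈ (S ×ˢ S).filter (fun x => x.1 + x.2 = n),
      Real.exp (-(s * ((x.1 + x.2 : ℕ) : ℝ))) = Real.exp (-(s * n)) := by
    intro x hx
    rw [(Finset.mem_filter.mp hx).2]
  rw [Finset.sum_congr rfl h2, Finset.sum_const, nsmul_eq_mul]
  rfl

theorem quad (hg : S_GEO) : S_QUAD := by
  intro R l u hl hlu
  have hu : 0 ≤ u := le_trans hl hlu
  have hlu0 : 0 ≤ l * u := mul_nonneg hl hu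
  have hR : (0 : ℝ) ≤ R := Nat.cast_nonneg R
  refine ⟨2 * (9 * (R : ℝ) ^ 2 + l * u), by nlinarith [sq_nonneg (R : ℝ)], ?_⟩
  intro S M ε t c _ hM hε hεt ht hMε hc hcR
  have hgeo := (hg ε t M hε hεt ht hMε).1
  have hterm : ∀ n ∈ range (M + 1), ((r S n : ℝ) - c) ^ 2 * Real.exp (-(2 * t * n)) =
      (l + u - 2 * c) * ((r S n : ℝ) * Real.exp (-(2 * t * n))) +
        (c ^ 2 - l * u) * Real.exp (-(2 * t * n)) +
          (((r S n : ℝ) - l) * ((r S n : ℝ) - u)) * Real.exp (-(2 * t * n)) := by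
    intro n _
    ring
  rw [Finset.sum_congr rfl hterm, Finset.sum_add_distrib, Finset.sum_add_distrib,
    ← Finset.mul_sum, ← Finset.mul_sum, ← sq_eq S M (2 * t) hM]
  have h3 : ∑ n ∈ range (M + 1), (((r S n : ℝ) - l) * ((r S n : ℝ) - u)) *
      Real.exp (-(2 * t * n)) ≤ ∑ n ∈ range (M + 1),
        max 0 (((r S n : ℝ) - l) * ((r S n : ℝ) - u)) * Real.exp (-(2 * t * n)) := by
    refine Finset.sum_le_sum fun n _ => ?_
    exact mul_le_mul_of_nonneg_right (le_max_right _ _) (Real.exp_pos _).le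
  have hcc : c ^ 2 ≤ 9 * (R : ℝ) ^ 2 := by nlinarith
  have habs : |c ^ 2 - l * u| ≤ 9 * (R : ℝ) ^ 2 + l * u := by
    rw [abs_le]
    constructor
    · nlinarith [sq_nonneg c, sq_nonneg (R : ℝ)]
    · nlinarith
  have h2 : (c ^ 2 - l * u) * ∑ n ∈ range (M + 1), Real.exp (-(2 * t * n)) ≤
      (c ^ 2 - l * u) / (2 * t) + 2 * (9 * (R : ℝ) ^ 2 + l * u) := by
    have h4 : (c ^ 2 - l * u) * (∑ n ∈ range (M + 1), Real.exp (-(2 * t * n)) - 1 / (2 * t)) ≤
        2 * (9 * (R : ℝ) ^ 2 + l * u) := by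
      refine le_trans (le_abs_self _) ?_
      rw [abs_mul]
      calc |c ^ 2 - l * u| * |∑ n ∈ range (M + 1), Real.exp (-(2 * t * n)) - 1 / (2 * t)|
          ≤ (9 * (R : ℝ) ^ 2 + l * u) * 2 :=
            mul_le_mul habs hgeo (abs_nonneg _) (le_trans (abs_nonneg _) habs)
        _ = 2 * (9 * (R : ℝ) ^ 2 + l * u) := by ring
    have h5 : (c ^ 2 - l * u) / (2 * t) = (c ^ 2 - l * u) * (1 / (2 * t)) := by
      rw [mul_one_div]
    rw [h5]
    rw [mul_sub] at h4
    linarith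
  linarith

end Pool.Agent.W977.EB.Quad
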